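import Mathlib
import Pool.Agent.Helper11.Can.Defs

/-!
# CAN-L7: the comparison lemma (MP_5f0950_ag)
-/

universe u

open Finset Matrix

namespace Pool.Agent.Helper11.Can

open Pool.Agent.Helper10.GIT Pool.Agent.Helper11.GIT

variable {P : ℕ} {d : Fin P → ℕ}

namespace L7

variable {κ : Type u} [Field κ]

lemma isUnit_of {k : ℕ} {A : Matrix (Fin k) (Fin k) κ} (h : A.det ≠ 0) : IsUnit A.det :=
  isUnit_iff_ne_zero.mpr h

/-- weights of words after a change of bases which does not decrease the weights -/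
lemma le_wgt {A : Family d κ} {g h : Mats d κ} (hh : ∀ c, (h c).det ≠ 0) {γ α : WSpace d}
    (hgh : ∀ c, LeW (g c * (h c)⁻¹) (fun a => γ ⟨c, a⟩) (fun a => α ⟨c, a⟩)) {w : Words d}
    (hw : w ∈ suppW g A) : ∃ w' ∈ suppW h A, wgt γ w' ≤ wgt α w := by
  obtain ⟨χ, v⟩ := w
  obtain ⟨v', hv', hk⟩ := supp_transition (M := A χ) (g := sh g χ)
    (k := fun i => g (χ.2 i) * (h (χ.2 i))⁻¹) (h := sh h χ) (by
      funext i
      change g (χ.2 i) = g (χ.2 i) * (h (χ.2 i))⁻¹ * h (χ.2 i)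
      rw [Matrix.mul_assoc, Matrix.nonsing_inv_mul _ (isUnit_of (hh _)), Matrix.mul_one]) hw
  exact ⟨⟨χ, v'⟩, hv', sum_le_sum fun i _ => hgh (χ.2 i) _ _ (hk i)⟩

/-- adapted weights after a change of bases which does not decrease the weights -/
lemma adapted_of {A N : Family d κ} {g h : Mats d κ} {γ α : WSpace d} (h1 : Adapted A N h γ)
    (hg : ∀ c, (g c).det ≠ 0) (hα : ∀ c, ∑ a, α ⟨c, a⟩ = 0)
    (hgh : ∀ c, LeW (g c * (h c)⁻¹) (fun a => γ ⟨c, a⟩) (fun a => α ⟨c, a⟩)) :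
    Adapted A N g α where
  det := hg
  sum := hα
  nonneg w hw := by
    obtain ⟨w', hw', hle⟩ := le_wgt h1.det hgh hw
    exact (h1.nonneg w' hw').trans hle
  one_le w hw := by
    obtain ⟨w', hw', hle⟩ := le_wgt h1.det hgh hw
    exact (h1.one_le w' hw').trans hle

/-- the average of two adapted weights is adapted -/
lemma adapted_half {A N : Family d κ} {g : Mats d κ} {γ α : WSpace d} (h1 : Adapted A N g γ)
    (h2 : Adapted A N g α) : Adapted A N g ((2 : ℝ)⁻¹ • (γ + α)) := by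
  have hw : ∀ w : Words d, wgt ((2 : ℝ)⁻¹ • (γ + α)) w = (2 : ℝ)⁻¹ * (wgt γ w + wgt α w) := by
    intro w
    simp only [wgt, PiLp.smul_apply, PiLp.add_apply, smul_eq_mul]
    rw [← mul_sum, sum_add_distrib]
  refine ⟨h1.det, fun c => ?_, fun w hA => ?_, fun w hN => ?_⟩
  · simp only [PiLp.smul_apply, PiLp.add_apply, smul_eq_mul]
    rw [← mul_sum, sum_add_distrib, h1.sum, h2.sum, add_zero, mul_zero]
  · rw [hw]
    have e1 := h1.nonneg w hA
    have e2 := h2.nonneg w hA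
    linarith
  · rw [hw]
    have e1 := h1.one_le w hN
    have e2 := h2.one_le w hN
    linarith

end L7

open L7

/-- CAN-L7: the comparison lemma. -/
theorem comparison {κ : Type u} [Field κ] {A N : Family d κ} {h₁ h₂ : Mats d κ}
    {γ₁ γ₂ : WSpace d} (hmin : ∀ h' γ', Adapted A N h' γ' → ‖γ₁‖ ≤ ‖γ'‖)
    (h1 : Adapted A N h₁ γ₁) (h2 : Adapted A N h₂ γ₂) (hle : ‖γ₂‖ ≤ ‖γ₁‖) (c : Fin P) :
    LeW (h₂ c * (h₁ c)⁻¹) (fun a => γ₁ ⟨c, a⟩) (fun a => γ₂ ⟨c, a⟩) := by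
  classical
  have hh₁ := h1.det
  have hh₂ := h2.det
  choose g α hg hgh hgα hgα' hπ using fun t => exists_common (h₁ t) (h₂ t) (hh₁ t) (hh₂ t)
    (fun i => γ₁ ⟨t, i⟩) (fun i => γ₂ ⟨t, i⟩)
  choose π hπ using hπ
  set a : WSpace d := WithLp.toLp 2 fun s => α s.1 s.2 with ha
  have haa : ∀ t i, a ⟨t, i⟩ = α t i := fun t i => rfl
  have ha0 : ∀ t, ∑ i, a ⟨t, i⟩ = 0 := by
    intro t
    rw [← h2.sum t, ← Equiv.sum_comp (π t)]
    exact sum_congr rfl fun i _ => hπ t i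
  have hγg : Adapted A N g γ₁ := adapted_of h1 hg h1.sum hgh
  have hag : Adapted A N g a := adapted_of h2 hg ha0 hgα'
  have hnorm : ‖a‖ = ‖γ₂‖ := by
    have h1 : ‖a‖ ^ 2 = ‖γ₂‖ ^ 2 := by
      rw [EuclideanSpace.real_norm_sq_eq, EuclideanSpace.real_norm_sq_eq, Fintype.sum_sigma,
        Fintype.sum_sigma]
      refine sum_congr rfl fun t _ => ?_
      rw [← Equiv.sum_comp (π t)]
      refine sum_congr rfl fun i _ => ?_
      rw [haa, hπ t i]
    exact (pow_left_inj₀ (norm_nonneg _) (norm_nonneg _) two_ne_zero).mp h1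
  have hag' : a = γ₁ := by
    by_contra hne
    set β : WSpace d := (2 : ℝ)⁻¹ • (γ₁ + a) with hβ
    have h3 := hmin g β (adapted_half hγg hag)
    have h4 : 0 < ‖γ₁ - a‖ ^ 2 := by
      have : γ₁ - a ≠ 0 := sub_ne_zero.mpr (Ne.symm hne)
      positivity
    have h5 := parallelogram_law_with_norm ℝ γ₁ a
    have h6 : ‖β‖ ^ 2 = 4⁻¹ * ‖γ₁ + a‖ ^ 2 := by
      rw [hβ, norm_smul, mul_pow]
      norm_num
    have h7 : ‖γ₁‖ ^ 2 ≤ ‖β‖ ^ 2 := pow_le_pow_left₀ (norm_nonneg _) h3 2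
    have h8 : ‖a‖ ^ 2 ≤ ‖γ₁‖ ^ 2 := pow_le_pow_left₀ (norm_nonneg _) (hnorm.le.trans hle) 2
    rw [h6] at h7
    nlinarith
  have hαt : α c = fun i => γ₁ ⟨c, i⟩ := by
    funext i
    rw [← haa, hag']
  have h3 := hgα c
  rw [hαt] at h3
  have h4 := h3.mul (hgh c)
  have h5 : h₂ c * (g c)⁻¹ * (g c * (h₁ c)⁻¹) = h₂ c * (h₁ c)⁻¹ := by
    rw [Matrix.mul_assoc, ← Matrix.mul_assoc (g c)⁻¹, Matrix.nonsing_inv_mul _ (isUnit_of (hg c)),
      Matrix.one_mul]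
  rwa [h5] at h4

end Pool.Agent.Helper11.Can
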